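import Pool.Agent.H45.Lib.S8.H38R2.CG2.Stubs

namespace Pool.Agent.H38R2.CG2

open Finset Filter NumberField Pool.Agent.H38R2.CG
open scoped Classical

namespace BHah

theorem prod_union_le (s t : Finset ℕ) (h : ∀ p ∈ s ∩ t, 1 ≤ p) :
    ∏ p ∈ s ∪ t, (p : ℝ) ≤ (∏ p ∈ s, (p : ℝ)) * ∏ p ∈ t, (p : ℝ) := by
  rw [← Finset.prod_union_inter]
  have h1 : (1 : ℝ) ≤ ∏ p ∈ s ∩ t, (p : ℝ) := by
    have : ∏ p ∈ s ∩ t, (1 : ℝ) ≤ ∏ p ∈ s ∩ t, (p : ℝ) :=
      Finset.prod_le_prod (fun _ _ => zero_le_one) (fun p hp => by exact_mod_cast h p hp)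
    simpa using this
  exact le_mul_of_one_le_right (Finset.prod_nonneg fun _ _ => Nat.cast_nonneg _) h1

theorem cover (F : Finset ℕ) (hF : ∀ p ∈ F, 1 ≤ p) (B : ℕ → Finset ℕ) (J : ℕ) :
    ∏ p ∈ F.filter (fun p => ∃ j < J, p ∈ B j), (p : ℝ) ≤
      ∏ j ∈ Finset.range J, ∏ p ∈ F ∩ B j, (p : ℝ) := by
  induction J with
  | zero => simp
  | succ J ih =>
    rw [Finset.prod_range_succ]
    have e : F.filter (fun p => ∃ j < J + 1, p ∈ B j) =
        F.filter (fun p => ∃ j < J, p ∈ B j) ∪ (F ∩ B J) := by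
      ext p
      simp only [Finset.mem_filter, Finset.mem_union, Finset.mem_inter]
      constructor
      · rintro ⟨h1, j, hj, h2⟩
        rcases Nat.lt_succ_iff_lt_or_eq.mp hj with h | h
        · exact Or.inl ⟨h1, j, h, h2⟩
        · subst h; exact Or.inr ⟨h1, h2⟩
      · rintro (⟨h1, j, hj, h2⟩ | ⟨h1, h2⟩)
        · exact ⟨h1, j, by omega, h2⟩
        · exact ⟨h1, J, by omega, h2⟩
    rw [e]
    refine (prod_union_le _ _ ?_).trans ?_
    · intro p hp
      exact hF p (Finset.mem_inter.mp (Finset.mem_inter.mp hp).2).1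
    · exact mul_le_mul_of_nonneg_right ih (Finset.prod_nonneg fun _ _ => Nat.cast_nonneg _)

theorem sum_le (J : ℕ) : ∑ j ∈ Finset.range J, ((j : ℝ) + 1) / 2 ^ j = 4 - (2 * J + 4) / 2 ^ J := by
  induction J with
  | zero => simp
  | succ J ih =>
    rw [Finset.sum_range_succ, ih]
    push_cast
    field_simp
    ring

end BHah

open BHah in
theorem T2_BHa : P2_BHa := by
  intro z a X δ d hz hX hδ hd
  unfold rhoX rhoB at hd
  have hcond : Squarefree d ∧ (∀ p ∈ d.primeFactors, ∃ j < X, p ∈ blk z a X δ j) ∧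
      (∀ j < X, (d.primeFactors ∩ blk z a X δ j).card ≤ 2 * (j + 1)) := by
    by_contra h
    exact hd (if_neg h)
  obtain ⟨hsq, h1, h2⟩ := hcond
  have hXR : (1 : ℝ) ≤ (X : ℝ) := by exact_mod_cast hX
  have hX0 : (0 : ℝ) < (X : ℝ) := by linarith
  have e1 : (d : ℝ) = ∏ p ∈ d.primeFactors, (p : ℝ) := by
    have := Nat.prod_primeFactors_of_squarefree hsq
    conv_lhs => rw [← this]
    push_cast
    rfl
  have e2 : d.primeFactors.filter (fun p => ∃ j < X, p ∈ blk z a X δ j) = d.primeFactors :=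
    Finset.filter_true_of_mem h1
  have h3 := cover d.primeFactors (fun p hp => (Nat.prime_of_mem_primeFactors hp).one_le)
    (blk z a X δ) X
  rw [e2] at h3
  rw [e1]
  refine h3.trans ?_
  have h4 : ∀ j ∈ Finset.range X, ∏ p ∈ d.primeFactors ∩ blk z a X δ j, (p : ℝ) ≤
      (X : ℝ) ^ (δ / 4 * (((j : ℝ) + 1) / 2 ^ j)) := by
    intro j hj
    have hb : (1 : ℝ) ≤ (X : ℝ) ^ (δ / 8 / 2 ^ j) := Real.one_le_rpow hXR (by positivity)
    calc ∏ p ∈ d.primeFactors ∩ blk z a X δ j, (p : ℝ)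
        ≤ ∏ p ∈ d.primeFactors ∩ blk z a X δ j, (X : ℝ) ^ (δ / 8 / 2 ^ j) := by
          refine Finset.prod_le_prod (fun _ _ => Nat.cast_nonneg _) fun p hp => ?_
          have hp' := (Finset.mem_inter.mp hp).2
          unfold blk at hp'
          rw [Finset.mem_filter, Finset.mem_Ioc] at hp'
          exact (Nat.cast_le.mpr hp'.1.2).trans (Nat.floor_le (by positivity))
      _ = ((X : ℝ) ^ (δ / 8 / 2 ^ j)) ^ (d.primeFactors ∩ blk z a X δ j).card := by
          rw [Finset.prod_const]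
      _ ≤ ((X : ℝ) ^ (δ / 8 / 2 ^ j)) ^ (2 * (j + 1)) :=
          pow_le_pow_right₀ hb (h2 j (Finset.mem_range.mp hj))
      _ = (X : ℝ) ^ (δ / 4 * (((j : ℝ) + 1) / 2 ^ j)) := by
          rw [← Real.rpow_natCast, ← Real.rpow_mul hX0.le]
          congr 1
          push_cast
          field_simp
          ring
  calc ∏ j ∈ Finset.range X, ∏ p ∈ d.primeFactors ∩ blk z a X δ j, (p : ℝ)
      ≤ ∏ j ∈ Finset.range X, (X : ℝ) ^ (δ / 4 * (((j : ℝ) + 1) / 2 ^ j)) :=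
        Finset.prod_le_prod (fun _ _ => Finset.prod_nonneg fun _ _ => Nat.cast_nonneg _) h4
    _ = (X : ℝ) ^ (∑ j ∈ Finset.range X, δ / 4 * (((j : ℝ) + 1) / 2 ^ j)) := by
        rw [Real.rpow_sum_of_pos hX0]
    _ ≤ (X : ℝ) ^ δ := by
        apply Real.rpow_le_rpow_of_exponent_le hXR
        rw [← Finset.mul_sum, sum_le]
        have : (0 : ℝ) ≤ (2 * (X : ℝ) + 4) / 2 ^ X := by positivity
        nlinarith

end Pool.Agent.H38R2.CG2
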