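import Pool.Agent.H45.Lib.S8.H38R2.CG2.Stubs
import Pool.Agent.H45.Lib.S8.Helper923.HMertens

/-!
# Task CH: Chebyshev type bounds
-/

set_option autoImplicit false

namespace Pool.Agent.H38R2.CG2

open Finset Filter NumberField Pool.Agent.H38R2.CG
open scoped Classical

namespace CHh

/-- primes between the square root and `x` -/
theorem part1 : ∃ L : ℝ, 0 < L ∧ ∀ x : ℝ, 1 ≤ x →
    ∑ p ∈ (Finset.Ioc ⌊√x⌋₊ ⌊x⌋₊).filter Nat.Prime, (1 : ℝ) / p ≤ L := by
  obtain ⟨C, hC⟩ := Pool.Agent.Helper923.HMertens.mertens_log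
  have hC0 : 0 ≤ C := (abs_nonneg _).trans (hC 1 le_rfl)
  refine ⟨2 * C + 4, by linarith, fun x hx => ?_⟩
  by_cases h4 : x < 4
  · have h1 : ((Finset.Ioc ⌊√x⌋₊ ⌊x⌋₊).filter Nat.Prime).card ≤ 4 := by
      refine (Finset.card_filter_le _ _).trans ?_
      rw [Nat.card_Ioc]
      have : ⌊x⌋₊ ≤ 4 := Nat.floor_le_of_le (by exact_mod_cast h4.le)
      omega
    have h2 : ∑ p ∈ (Finset.Ioc ⌊√x⌋₊ ⌊x⌋₊).filter Nat.Prime, (1 : ℝ) / p ≤
        ∑ p ∈ (Finset.Ioc ⌊√x⌋₊ ⌊x⌋₊).filter Nat.Prime, (1 : ℝ) := by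
      apply Finset.sum_le_sum
      intro p hp
      rw [Finset.mem_filter] at hp
      have : (1 : ℝ) ≤ p := by exact_mod_cast hp.2.one_lt.le
      rw [div_le_one (by linarith)]
      exact this
    rw [Finset.sum_const, nsmul_eq_mul, mul_one] at h2
    have h3 : (((Finset.Ioc ⌊√x⌋₊ ⌊x⌋₊).filter Nat.Prime).card : ℝ) ≤ 4 := by exact_mod_cast h1
    linarith
  · push Not at h4
    have hx0 : 0 < x := by linarith
    have hlog : 1 ≤ Real.log x := by
      have h1 : Real.log 4 ≤ Real.log x := Real.log_le_log (by norm_num) h4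
      have h2 : Real.log 4 = 2 * Real.log 2 := by
        rw [show (4 : ℝ) = 2 ^ 2 by norm_num, Real.log_pow]; norm_num
      have h3 := Real.log_two_gt_d9
      linarith
    have hfl : 1 ≤ ⌊x⌋₊ := Nat.le_floor (by exact_mod_cast hx)
    have hM := hC ⌊x⌋₊ hfl
    rw [abs_le] at hM
    have hlf : Real.log ⌊x⌋₊ ≤ Real.log x :=
      Real.log_le_log (by exact_mod_cast hfl) (Nat.floor_le hx0.le)
    have h1 : ∑ p ∈ (Finset.Ioc ⌊√x⌋₊ ⌊x⌋₊).filter Nat.Prime, (1 : ℝ) / p ≤
        ∑ p ∈ (Finset.Ioc ⌊√x⌋₊ ⌊x⌋₊).filter Nat.Prime, 2 / Real.log x * (Real.log p / p) := by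
      apply Finset.sum_le_sum
      intro p hp
      rw [Finset.mem_filter, Finset.mem_Ioc] at hp
      have hp1 : √x < p := Nat.lt_of_floor_lt hp.1.1
      have hp0 : (0 : ℝ) < p := by exact_mod_cast hp.2.pos
      have hlp : Real.log x / 2 ≤ Real.log p := by
        rw [← Real.log_sqrt hx0.le]
        exact Real.log_le_log (Real.sqrt_pos.2 hx0) hp1.le
      rw [div_mul_div_comm, div_le_div_iff₀ hp0 (by positivity)]
      nlinarith
    have h2 : ∑ p ∈ (Finset.Ioc ⌊√x⌋₊ ⌊x⌋₊).filter Nat.Prime, 2 / Real.log x * (Real.log p / p) ≤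
        ∑ p ∈ (Finset.Icc 1 ⌊x⌋₊).filter Nat.Prime, 2 / Real.log x * (Real.log p / p) := by
      apply Finset.sum_le_sum_of_subset_of_nonneg
      · apply Finset.filter_subset_filter
        intro p hp
        rw [Finset.mem_Ioc] at hp
        rw [Finset.mem_Icc]
        exact ⟨by omega, hp.2⟩
      · intro p hp _
        rw [Finset.mem_filter, Finset.mem_Icc] at hp
        have : 0 ≤ Real.log p := Real.log_natCast_nonneg p
        positivity
    rw [← Finset.mul_sum] at h1
    rw [← Finset.mul_sum, ← Finset.mul_sum] at h2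
    have h3 : 2 / Real.log x * ∑ p ∈ (Finset.Icc 1 ⌊x⌋₊).filter Nat.Prime, Real.log p / p ≤
        2 / Real.log x * (Real.log x + C) := by
      apply mul_le_mul_of_nonneg_left _ (by positivity)
      have := hM.2
      have e : (∑ p ∈ (Finset.Icc 1 ⌊x⌋₊).filter Nat.Prime, Real.log p / p) ≤
        Real.log ⌊x⌋₊ + C := by
        convert sub_le_iff_le_add'.1 this using 1
      linarith
    have h4' : 2 / Real.log x * (Real.log x + C) ≤ 2 * C + 4 := by
      rw [div_mul_eq_mul_div, div_le_iff₀ (by linarith)]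
      nlinarith
    linarith

theorem part2 (y : ℕ) : ∑ p ∈ PP y, (1 : ℝ) / p ≤ 1 := by
  rcases Nat.eq_zero_or_pos y with rfl | hy
  · simp [PP]
  · have hy' : (0 : ℝ) < y := by exact_mod_cast hy
    have h1 : ∑ p ∈ PP y, (1 : ℝ) / p ≤ ∑ p ∈ PP y, (1 : ℝ) / y := by
      apply Finset.sum_le_sum
      intro p hp
      unfold PP at hp
      rw [Finset.mem_filter, Finset.mem_Ioc] at hp
      have : (y : ℝ) ≤ p := by exact_mod_cast hp.1.1.le
      exact one_div_le_one_div_of_le hy' this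
    rw [Finset.sum_const, nsmul_eq_mul] at h1
    have h2 : ((PP y).card : ℝ) ≤ y := by
      have : (PP y).card ≤ y := by
        unfold PP
        refine (Finset.card_filter_le _ _).trans ?_
        rw [Nat.card_Ioc]
        omega
      exact_mod_cast this
    refine h1.trans ?_
    rw [mul_one_div, div_le_one hy']
    exact h2

theorem part3 (N : ℕ) (hN : 2 ≤ N) :
    (((Finset.Icc 2 N).filter Nat.Prime).card : ℝ) ≤ 8 * N / Real.log N := by
  have hN' : (2 : ℝ) ≤ N := by exact_mod_cast hN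
  have hN0 : (0 : ℝ) < N := by linarith
  have h1 := Chebyshev.pi_le_log4_mul_div (x := (N : ℝ)) (by linarith)
  rw [Nat.floor_natCast] at h1
  have h2 : (((Finset.Icc 2 N).filter Nat.Prime).card : ℝ) ≤ (Nat.primeCounting N : ℝ) := by
    have : ((Finset.Icc 2 N).filter Nat.Prime).card ≤ Nat.primeCounting N := by
      unfold Nat.primeCounting Nat.primeCounting'
      rw [Nat.count_eq_card_filter_range]
      apply Finset.card_le_card
      intro p hp
      rw [Finset.mem_filter, Finset.mem_Icc] at hp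
      rw [Finset.mem_filter, Finset.mem_range]
      exact ⟨by omega, hp.2⟩
    exact_mod_cast this
  have hlogN : 0 < Real.log N := Real.log_pos (by linarith)
  have hs : Real.log √N = Real.log N / 2 := Real.log_sqrt hN0.le
  rw [hs] at h1
  have h3 : Real.log 4 ≤ 2 := by
    have h2 : Real.log 4 = 2 * Real.log 2 := by
      rw [show (4 : ℝ) = 2 ^ 2 by norm_num, Real.log_pow]; norm_num
    have h3 := Real.log_two_lt_d9
    linarith
  have h4 : √N ≤ 2 * N / Real.log N := by
    rw [le_div_iff₀ hlogN]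
    have h5 : Real.log √N ≤ √N := (Real.log_le_sub_one_of_pos (Real.sqrt_pos.2 hN0)).trans (by linarith)
    rw [hs] at h5
    have h6 : √(N : ℝ) * √N = N := Real.mul_self_sqrt hN0.le
    nlinarith [Real.sqrt_nonneg (N : ℝ)]
  have h5 : Real.log 4 * N / (Real.log N / 2) ≤ 4 * N / Real.log N := by
    rw [div_div_eq_mul_div]
    apply div_le_div_of_nonneg_right _ hlogN.le
    nlinarith
  calc (((Finset.Icc 2 N).filter Nat.Prime).card : ℝ) ≤ (Nat.primeCounting N : ℝ) := h2
    _ ≤ 4 * N / Real.log N + 2 * N / Real.log N := by linarith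
    _ = 6 * N / Real.log N := by ring
    _ ≤ 8 * N / Real.log N := by gcongr; norm_num

end CHh

theorem T2_CH : P2_CH := by
  obtain ⟨L, hL, h1⟩ := CHh.part1
  refine ⟨L + 8, by linarith, fun x hx => (h1 x hx).trans (by linarith),
    fun y => (CHh.part2 y).trans (by linarith), fun N hN => (CHh.part3 N hN).trans ?_⟩
  have hN' : (2 : ℝ) ≤ N := by exact_mod_cast hN
  have hlogN : 0 < Real.log N := Real.log_pos (by linarith)
  gcongr
  linarith

end Pool.Agent.H38R2.CG2
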