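import Pool.Agent.H45.Lib.S8.H38R2.CG2.Stubs
import Pool.Agent.H45.Lib.S8.H38R2.CG.LM2

/-!
# V1: cancellation of Jacobi symbols with weights
-/

set_option autoImplicit false

namespace Pool.Agent.H38R2.CG2

open Finset Filter NumberField Pool.Agent.H38R2.CG
open scoped Classical

namespace V1h

lemma k_bound (C : ℝ) (hC : 0 < C)
    (hPV : ∀ (q : ℕ) (χ : DirichletCharacter ℂ q), 2 ≤ q → χ ≠ 1 →
    ∀ a b : ℕ, ‖∑ n ∈ Finset.Ioc a b, χ (n : ZMod q)‖ ≤ C * √(q : ℝ) * Real.log q)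
    (m : ℕ) (hodd : Odd m) (hsq : ¬ IsSquare m) (Q r k : ℕ) (hrQ : r < Q) (hk : 1 ≤ k)
    (hkQ : k.Coprime Q) (hmQ : m.Coprime Q) (A B : ℕ) (hAB : A ≤ B) :
    |∑ D ∈ ((Ioc A B).filter (fun D => D % Q = r)).filter (fun D => k ∣ D),
      ((jacobiSym (D : ℤ) m : ℤ) : ℝ)| ≤ C * √(m : ℝ) * Real.log m := by
  have hm0 : m ≠ 0 := by rintro rfl; simp at hodd
  by_cases hem : k.Coprime m
  · have hco : Q.Coprime k := hkQ.symm
    obtain ⟨c, hc1, hc2⟩ := Nat.chineseRemainder hco r 0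
    have hW0 : 0 < Q * k := Nat.mul_pos (by omega) hk
    have hcW : c % (Q * k) < Q * k := Nat.mod_lt _ hW0
    have hWm : (Q * k).Coprime m := Nat.Coprime.mul_left hmQ.symm hem
    have h1 := LM2h.ap_sum C hPV m hodd hsq (Q * k) (c % (Q * k)) hcW hWm A B hAB
    have h2 : ((Ioc A B).filter (fun D => D % Q = r)).filter (fun D => k ∣ D) =
        (Ioc A B).filter (fun D => D % (Q * k) = c % (Q * k)) := by
      rw [Finset.filter_filter]
      apply Finset.filter_congr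
      intro D _
      have h3 : D % (Q * k) = c % (Q * k) ↔ D ≡ c [MOD Q * k] := Iff.rfl
      rw [h3, ← Nat.modEq_and_modEq_iff_modEq_mul hco]
      have h4 : D % Q = r ↔ D ≡ r [MOD Q] := by
        unfold Nat.ModEq
        rw [Nat.mod_eq_of_lt hrQ]
      rw [h4, ← Nat.modEq_zero_iff_dvd]
      constructor
      · rintro ⟨h5, h6⟩
        exact ⟨h5.trans hc1.symm, h6.trans hc2.symm⟩
      · rintro ⟨h5, h6⟩
        exact ⟨h5.trans hc1, h6.trans hc2⟩
    rw [h2]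
    exact h1
  · have h1 : ∑ D ∈ ((Ioc A B).filter (fun D => D % Q = r)).filter (fun D => k ∣ D),
      ((jacobiSym (D : ℤ) m : ℤ) : ℝ) = 0 := by
      apply Finset.sum_eq_zero
      intro D hD
      rw [mem_filter] at hD
      have : NeZero m := ⟨hm0⟩
      have h2 : jacobiSym (D : ℤ) m = 0 := by
        rw [jacobiSym.eq_zero_iff_not_coprime, Int.gcd_natCast_natCast]
        intro h3
        exact hem (Nat.Coprime.coprime_dvd_left hD.2 h3)
      rw [h2]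
      norm_num
    rw [h1, abs_zero]
    have : 0 ≤ Real.log (m : ℝ) := Real.log_natCast_nonneg m
    positivity

lemma k_bound2 (Q r k X m A B : ℕ) (hk : 1 ≤ k) (hB : B ≤ 2 * X) :
    |∑ D ∈ ((Ioc A B).filter (fun D => D % Q = r)).filter (fun D => k ∣ D),
      ((jacobiSym (D : ℤ) m : ℤ) : ℝ)| ≤ 2 * X * (k : ℝ)⁻¹ := by
  refine (Finset.abs_sum_le_sum_abs _ _).trans ?_
  refine (Finset.sum_le_card_nsmul _ _ 1 (fun D _ => LM2h.abs_jac _ _)).trans ?_
  rw [nsmul_eq_mul, mul_one]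
  have h1 : (((Ioc A B).filter (fun D => D % Q = r)).filter (fun D => k ∣ D)).card ≤
      ((Ioc 0 B).filter (fun D => k ∣ D)).card := by
    apply Finset.card_le_card
    intro D hD
    rw [mem_filter, mem_filter, mem_Ioc] at hD
    rw [mem_filter, mem_Ioc]
    exact ⟨⟨by omega, hD.1.1.2⟩, hD.2⟩
  rw [Nat.Ioc_filter_dvd_card_eq_div] at h1
  have h2 : ((B / k : ℕ) : ℝ) ≤ (B : ℝ) / (k : ℝ) := Nat.cast_div_le
  have h3 : (B : ℝ) ≤ 2 * X := by exact_mod_cast hB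
  have he0 : (0 : ℝ) < k := by exact_mod_cast hk
  calc ((((Ioc A B).filter (fun D => D % Q = r)).filter (fun D => k ∣ D)).card : ℝ) ≤
      ((B / k : ℕ) : ℝ) := by exact_mod_cast h1
    _ ≤ (B : ℝ) / (k : ℝ) := h2
    _ ≤ 2 * X * (k : ℝ)⁻¹ := by
        rw [div_eq_mul_inv]
        apply mul_le_mul_of_nonneg_right h3
        positivity

/-- growth -/
lemma growth (C c : ℝ) (hC : 0 < C) (hc : 0 < c) : ∃ X0 : ℕ, ∀ X ≥ X0, 2 ≤ X ∧
    C * Real.log (X : ℝ) + 4 ≤ (X : ℝ) ^ c := by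
  have h1 : Tendsto (fun x : ℝ => x ^ c) atTop atTop := tendsto_rpow_atTop hc
  have h2 := (isLittleO_log_rpow_atTop hc).bound
    (show (0 : ℝ) < 1 / (2 * C) by positivity)
  have h3 : ∀ᶠ x : ℝ in atTop, C * Real.log x + 4 ≤ x ^ c := by
    filter_upwards [h2, h1.eventually_ge_atTop 8, eventually_ge_atTop (1 : ℝ)] with x hx hx8 hx1
    rw [Real.norm_eq_abs, Real.norm_eq_abs, abs_of_nonneg (Real.log_nonneg hx1),
      abs_of_nonneg (by positivity)] at hx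
    have h4 : C * Real.log x ≤ C * (1 / (2 * C) * x ^ c) :=
      mul_le_mul_of_nonneg_left hx hC.le
    have h5 : C * (1 / (2 * C) * x ^ c) = x ^ c / 2 := by
      field_simp
    linarith
  have h4 := (tendsto_natCast_atTop_atTop (R := ℝ)).eventually h3
  obtain ⟨X0, hX0⟩ := eventually_atTop.1 h4
  refine ⟨max X0 2, fun X hX => ⟨le_trans (le_max_right _ _) hX,
    hX0 X (le_trans (le_max_left _ _) hX)⟩⟩

/-- sums against the weights -/
lemma dsum {z X : ℕ} {P : Finset ℕ} {δ : ℝ} {C0 : ℕ} {ρ : ℕ → ℝ} (hρ : SWt z X P δ C0 ρ)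
    (F : ℕ → ℝ) (G : ℝ) (hG : 0 ≤ G) (hF : ∀ d, 1 ≤ d → d.Coprime (Qz z) → |F d| ≤ G) :
    |∑ d ∈ Icc 1 X, ρ d * F d| ≤ (X : ℝ) ^ δ * G := by
  have hXδ : 0 ≤ (X : ℝ) ^ δ := by positivity
  calc |∑ d ∈ Icc 1 X, ρ d * F d| ≤ ∑ d ∈ Icc 1 X, |ρ d * F d| :=
        Finset.abs_sum_le_sum_abs _ _
    _ ≤ ∑ d ∈ Icc 1 X, (if d ∈ Icc 1 ⌊(X : ℝ) ^ δ⌋₊ then G else 0) := by
        apply Finset.sum_le_sum
        intro d _
        by_cases hd : ρ d = 0
        · rw [hd, zero_mul, abs_zero]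
          split_ifs
          · exact hG
          · exact le_rfl
        · obtain ⟨h1, h2, -, h4, -⟩ := hρ.supp d hd
          rw [if_pos (mem_Icc.2 ⟨h1, Nat.le_floor h2⟩), abs_mul]
          calc |ρ d| * |F d| ≤ 1 * G :=
                mul_le_mul (hρ.bd d) (hF d h1 h4) (abs_nonneg _) zero_le_one
            _ = G := one_mul _
    _ = ∑ d ∈ (Icc 1 X).filter (fun d => d ∈ Icc 1 ⌊(X : ℝ) ^ δ⌋₊), G := by
        rw [Finset.sum_filter]
    _ ≤ ∑ d ∈ Icc 1 ⌊(X : ℝ) ^ δ⌋₊, G := by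
        apply Finset.sum_le_sum_of_subset_of_nonneg
        · intro d hd
          exact (mem_filter.1 hd).2
        · exact fun _ _ _ => hG
    _ = ⌊(X : ℝ) ^ δ⌋₊ * G := by
        rw [Finset.sum_const, Nat.card_Icc, nsmul_eq_mul, Nat.add_sub_cancel]
    _ ≤ (X : ℝ) ^ δ * G := mul_le_mul_of_nonneg_right (Nat.floor_le hXδ) hG

/-- opening the weights -/
lemma wsum {X : ℕ} {ρ : ℕ → ℝ} (S : Finset ℕ) (hw : ∀ D ∈ S,
      wt ρ D = ∑ d ∈ (Finset.Icc 1 X).filter (fun d => d ∣ D), ρ d) (J : ℕ → ℝ) (e : ℕ) :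
    ∑ D ∈ S.filter (fun D => e ∣ D), wt ρ D * J D =
      ∑ d ∈ Icc 1 X, ρ d * ∑ D ∈ S.filter (fun D => Nat.lcm e d ∣ D), J D := by
  have h1 : ∀ D ∈ S.filter (fun D => e ∣ D), wt ρ D * J D =
      ∑ d ∈ Icc 1 X, if d ∣ D then ρ d * J D else 0 := by
    intro D hD
    rw [hw D (mem_filter.1 hD).1, Finset.sum_mul, Finset.sum_filter]
  rw [Finset.sum_congr rfl h1, Finset.sum_comm]
  refine Finset.sum_congr rfl fun d _ => ?_
  rw [← Finset.sum_filter, Finset.filter_filter, Finset.mul_sum]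
  refine Finset.sum_congr ?_ fun _ _ => rfl
  apply Finset.filter_congr
  intro D _
  rw [Nat.lcm_dvd_iff]

/-- opening the condition of being fundamental -/
lemma fsum {z r X : ℕ} (hr : FundRes z r) (hX : 1 ≤ X) {η : ℝ} {B : ℕ}
    (hB : B = ⌊(1 + η) * X⌋₊) (hB2 : B ≤ 2 * X) (f : ℕ → ℝ) :
    ∑ D ∈ FD z r X η, f D =
      ∑ e ∈ (Icc 1 (2 * X)).filter (fun e => e.Coprime (Qz z)),
        ((ArithmeticFunction.moebius e : ℤ) : ℝ) *
        ∑ D ∈ ((Ioc X B).filter (fun D => D % Qz z = r)).filter (fun D => e ^ 2 ∣ D), f D := by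
  unfold FD DD
  rw [← hB, Finset.sum_filter]
  have h1 : ∀ D ∈ (Ioc X B).filter (fun D => D % Qz z = r),
      (if IsFund D then f D else 0) =
      ∑ e ∈ (Icc 1 (2 * X)).filter (fun e => e.Coprime (Qz z)),
        if e ^ 2 ∣ D then ((ArithmeticFunction.moebius e : ℤ) : ℝ) * f D else 0 := by
    intro D hD
    rw [mem_filter, mem_Ioc] at hD
    have h2 := LM2h.isFund_iff hr hD.2 (by omega)
    have h3 := LM2h.moebius_id (Qz z) D (2 * X) (by omega) (fun e he => by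
      have h4 := Nat.le_of_dvd (by omega) he
      have h5 : e ≤ e ^ 2 := Nat.le_self_pow (by norm_num) e
      omega)
    rw [← Finset.sum_filter, ← Finset.sum_mul, Finset.filter_filter]
    have h6 : (∑ e ∈ (Icc 1 (2 * X)).filter (fun e => e.Coprime (Qz z) ∧ e ^ 2 ∣ D),
        ((ArithmeticFunction.moebius e : ℤ) : ℝ)) =
        (((if (∀ l : ℕ, l.Prime → ¬ l ∣ Qz z → ¬ l ^ 2 ∣ D) then 1 else 0 : ℤ)) : ℝ) := by
      rw [← h3]
      push_cast
      rfl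
    rw [h6]
    by_cases h7 : IsFund D
    · rw [if_pos h7, if_pos (h2.1 h7)]
      norm_num
    · rw [if_neg h7, if_neg (fun h8 => h7 (h2.2 h8))]
      norm_num
  rw [Finset.sum_congr rfl h1, Finset.sum_comm]
  apply Finset.sum_congr rfl
  intro e _
  rw [Finset.mul_sum, Finset.sum_filter (fun D => e ^ 2 ∣ D)]

lemma cc_pos {a : ℝ} (ha : 2 < a) : 0 < cc a := by
  unfold cc
  apply div_pos <;> linarith

lemma cc_lt {a : ℝ} (ha : 2 < a) : cc a ≤ 1 / 32 := by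
  unfold cc
  rw [div_le_iff₀ (by linarith)]
  linarith

end V1h

open V1h in
theorem T2_V1 : P_PV → P2_WT → P2_V1 := by
  rintro ⟨C, hC, hPV⟩ hWT a ha z r hr η hη hη1 C0
  have hc0 := cc_pos ha
  have hc1 := cc_lt ha
  have hth : th a = 1 - 8 * cc a := rfl
  obtain ⟨X0, hX0⟩ := growth (2 * C) (cc a) (by positivity) hc0
  refine ⟨X0, fun X hX ρ hρ m hm1 hmQ hsq => ?_⟩
  obtain ⟨hX2, hgrow⟩ := hX0 X hX
  obtain ⟨c, hcd⟩ : ∃ c, c = cc a := ⟨_, rfl⟩
  rw [← hcd] at hc0 hc1 hth hgrow hρ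
  rw [← hcd, hth]
  obtain ⟨B, hB⟩ : ∃ B, B = ⌊(1 + η) * X⌋₊ := ⟨_, rfl⟩
  have hXr : (2 : ℝ) ≤ X := by exact_mod_cast hX2
  have hXB : X ≤ B := by
    rw [hB]
    apply Nat.le_floor
    nlinarith
  have hB2 : B ≤ 2 * X := by
    have h1 : (B : ℝ) ≤ (1 + η) * X := by
      rw [hB]
      exact Nat.floor_le (by positivity)
    have h2 : (B : ℝ) ≤ 2 * X := by nlinarith
    exact_mod_cast h2
  have hodd : Odd m := by
    have h2Q : 2 ∣ Qz z := dvd_trans (by norm_num) (LM2h.dvd16 z)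
    have := Nat.Coprime.coprime_dvd_right h2Q hmQ
    exact Nat.coprime_two_right.1 this
  have hrQ := hr.1
  have hX0' : (0 : ℝ) < X := by linarith
  have hX1' : (1 : ℝ) ≤ X := by linarith
  have hlogX : 0 ≤ Real.log (X : ℝ) := Real.log_nonneg hX1'
  have hm0' : (0 : ℝ) < m := by exact_mod_cast hm1
  have hlogm : 0 ≤ Real.log (m : ℝ) := Real.log_natCast_nonneg m
  obtain ⟨S, hS⟩ : ∃ S, S = (Ioc X B).filter (fun D => D % Qz z = r) := ⟨_, rfl⟩
  have hS1 : ∀ D ∈ S, 1 ≤ D := by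
    intro D hD
    rw [hS, mem_filter, mem_Ioc] at hD
    omega
  have hDD : DD z r X η = S := by
    unfold DD
    rw [← hB, hS]
  have hw : ∀ D ∈ S, wt ρ D = ∑ d ∈ (Finset.Icc 1 X).filter (fun d => d ∣ D), ρ d :=
    fun D hD => (hWT z X (PA a X) c C0 ρ (by omega) (by linarith) hρ D (hS1 D hD)).2
  obtain ⟨G, hG⟩ : ∃ G : ℝ, G = C * √(m : ℝ) * Real.log m := ⟨_, rfl⟩
  have hG0 : 0 ≤ G := by rw [hG]; positivity
  have hkb : ∀ k, 1 ≤ k → k.Coprime (Qz z) →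
      |∑ D ∈ S.filter (fun D => k ∣ D), ((jacobiSym (D : ℤ) m : ℤ) : ℝ)| ≤ G := by
    intro k hk hkQ
    rw [hS, hG]
    exact k_bound C hC hPV m hodd hsq (Qz z) r k hrQ hk hkQ hmQ X B hXB
  have hkb2 : ∀ k, 1 ≤ k →
      |∑ D ∈ S.filter (fun D => k ∣ D), ((jacobiSym (D : ℤ) m : ℤ) : ℝ)| ≤
        2 * X * (k : ℝ)⁻¹ := by
    intro k hk
    rw [hS]
    exact k_bound2 (Qz z) r k X m X B hk hB2
  have hXc : (0 : ℝ) < (X : ℝ) ^ c := by positivity
  constructor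
  · intro hmX
    have hsm : √(m : ℝ) ≤ (X : ℝ) ^ (1 - 7 * c) := by
      rw [Real.sqrt_le_left (by positivity)]
      refine hmX.trans (le_of_eq ?_)
      rw [← Real.rpow_natCast, ← Real.rpow_mul hX0'.le]
      congr 1
      push_cast
      ring
    have hlm : Real.log m ≤ 2 * Real.log X := by
      have h1 := Real.log_le_log hm0' hmX
      rw [Real.log_rpow hX0'] at h1
      refine h1.trans (mul_le_mul_of_nonneg_right (by linarith) hlogX)
    have hGX : G ≤ (X : ℝ) ^ (1 - 7 * c) * (2 * C * Real.log X) := by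
      rw [hG]
      calc C * √(m : ℝ) * Real.log m ≤ C * (X : ℝ) ^ (1 - 7 * c) * (2 * Real.log X) := by
            gcongr
        _ = _ := by ring
    have h1 : ∑ D ∈ DD z r X η, wt ρ D * ((jacobiSym (D : ℤ) m : ℤ) : ℝ) =
        ∑ d ∈ Icc 1 X, ρ d * ∑ D ∈ S.filter (fun D => Nat.lcm 1 d ∣ D),
          ((jacobiSym (D : ℤ) m : ℤ) : ℝ) := by
      rw [← wsum S hw (fun D => ((jacobiSym (D : ℤ) m : ℤ) : ℝ)) 1, hDD]
      refine Finset.sum_congr ?_ fun _ _ => rfl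
      rw [Finset.filter_true_of_mem]
      intro D _
      exact one_dvd D
    rw [h1]
    refine (dsum hρ _ G hG0 ?_).trans ?_
    · intro d hd hdQ
      rw [Nat.lcm_one_left]
      exact hkb d hd hdQ
    · calc (X : ℝ) ^ c * G ≤ (X : ℝ) ^ c * ((X : ℝ) ^ (1 - 7 * c) * (2 * C * Real.log X)) :=
            mul_le_mul_of_nonneg_left hGX hXc.le
        _ ≤ (X : ℝ) ^ c * ((X : ℝ) ^ (1 - 7 * c) * (X : ℝ) ^ c) := by
            gcongr
            linarith
        _ = (X : ℝ) ^ (1 - 5 * c) := by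
            rw [← Real.rpow_add hX0', ← Real.rpow_add hX0']
            congr 1
            ring
        _ ≤ (X : ℝ) ^ (1 - c) := Real.rpow_le_rpow_of_exponent_le hX1' (by linarith)
  · intro hmX
    have hsm : √(m : ℝ) ≤ (X : ℝ) ^ (1 / 2 - 3 * c) := by
      rw [Real.sqrt_le_left (by positivity)]
      refine hmX.trans (le_of_eq ?_)
      rw [← Real.rpow_natCast, ← Real.rpow_mul hX0'.le]
      congr 1
      push_cast
      ring
    have hlm : Real.log m ≤ 2 * Real.log X := by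
      have h1 := Real.log_le_log hm0' hmX
      rw [Real.log_rpow hX0'] at h1
      refine h1.trans (mul_le_mul_of_nonneg_right (by linarith) hlogX)
    have hGX : G ≤ (X : ℝ) ^ (1 / 2 - 3 * c) * (2 * C * Real.log X) := by
      rw [hG]
      calc C * √(m : ℝ) * Real.log m ≤ C * (X : ℝ) ^ (1 / 2 - 3 * c) * (2 * Real.log X) := by
            gcongr
        _ = _ := by ring
    rw [fsum hr (by omega) hB hB2 (fun D => wt ρ D * ((jacobiSym (D : ℤ) m : ℤ) : ℝ)), ← hS]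
    obtain ⟨Y, hY⟩ : ∃ Y, Y = ⌊(X : ℝ) ^ (3 * c)⌋₊ := ⟨_, rfl⟩
    have hp1 : (1 : ℝ) ≤ (X : ℝ) ^ (3 * c) := Real.one_le_rpow hX1' (by linarith)
    have hY1 : 1 ≤ Y := by
      rw [hY]
      exact Nat.le_floor (by simpa using hp1)
    have hYle : (Y : ℝ) ≤ (X : ℝ) ^ (3 * c) := by
      rw [hY]
      exact Nat.floor_le (by positivity)
    have hYge : (X : ℝ) ^ (3 * c) ≤ 2 * Y := by
      have h1 : (X : ℝ) ^ (3 * c) < Y + 1 := by
        rw [hY]
        exact Nat.lt_floor_add_one _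
      have h2 : (1 : ℝ) ≤ Y := by exact_mod_cast hY1
      linarith
    have hYX : Y ≤ 2 * X := by
      have h1 : (Y : ℝ) ≤ X := by
        refine hYle.trans ?_
        calc (X : ℝ) ^ (3 * c) ≤ (X : ℝ) ^ (1 : ℝ) :=
              Real.rpow_le_rpow_of_exponent_le hX1' (by linarith)
          _ = X := Real.rpow_one _
      have h2 : Y ≤ X := by exact_mod_cast h1
      omega
    obtain ⟨T, hT⟩ : ∃ T : ℕ → ℝ, T = fun e => |∑ D ∈ S.filter (fun D => e ^ 2 ∣ D),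
      wt ρ D * ((jacobiSym (D : ℤ) m : ℤ) : ℝ)| := ⟨_, rfl⟩
    have hTw : ∀ e, T e = |∑ d ∈ Icc 1 X, ρ d * ∑ D ∈ S.filter (fun D => Nat.lcm (e ^ 2) d ∣ D),
        ((jacobiSym (D : ℤ) m : ℤ) : ℝ)| := by
      intro e
      rw [hT]
      exact congrArg abs (wsum S hw (fun D => ((jacobiSym (D : ℤ) m : ℤ) : ℝ)) (e ^ 2))
    have hT1 : ∀ e, 1 ≤ e → e.Coprime (Qz z) → T e ≤ (X : ℝ) ^ c * G := by
      intro e he heQ
      rw [hTw]
      refine dsum hρ _ G hG0 ?_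
      intro d hd hdQ
      refine hkb _ (Nat.lcm_pos (pow_pos he 2) hd) ?_
      exact Nat.Coprime.coprime_dvd_left (Nat.lcm_dvd_mul _ _)
        (Nat.Coprime.mul_left (Nat.Coprime.pow_left 2 heQ) hdQ)
    have hT2 : ∀ e, 1 ≤ e → T e ≤ (X : ℝ) ^ c * (2 * X * ((e : ℝ) ^ 2)⁻¹) := by
      intro e he
      rw [hTw]
      refine dsum hρ _ _ (by positivity) ?_
      intro d hd hdQ
      have he2 : 0 < e ^ 2 := pow_pos he 2
      have h1 := hkb2 (Nat.lcm (e ^ 2) d) (Nat.lcm_pos he2 hd)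
      refine h1.trans ?_
      refine mul_le_mul_of_nonneg_left ?_ (by positivity)
      have h2 : e ^ 2 ≤ Nat.lcm (e ^ 2) d :=
        Nat.le_of_dvd (Nat.lcm_pos he2 hd) (Nat.dvd_lcm_left _ _)
      have h3 : (e : ℝ) ^ 2 ≤ ((Nat.lcm (e ^ 2) d : ℕ) : ℝ) := by exact_mod_cast h2
      have h4 : (0 : ℝ) < (e : ℝ) ^ 2 := by exact_mod_cast he2
      exact inv_anti₀ h4 h3
    have hT0 : ∀ e, 0 ≤ T e := fun e => by rw [hT]; exact abs_nonneg _
    have hb1 : |∑ e ∈ (Icc 1 (2 * X)).filter (fun e => e.Coprime (Qz z)),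
          ((ArithmeticFunction.moebius e : ℤ) : ℝ) *
          ∑ D ∈ S.filter (fun D => e ^ 2 ∣ D), wt ρ D * ((jacobiSym (D : ℤ) m : ℤ) : ℝ)| ≤
        ∑ e ∈ (Icc 1 (2 * X)).filter (fun e => e.Coprime (Qz z)), T e := by
      refine (Finset.abs_sum_le_sum_abs _ _).trans ?_
      apply Finset.sum_le_sum
      intro e _
      rw [abs_mul, hT]
      have h1 : |((ArithmeticFunction.moebius e : ℤ) : ℝ)| ≤ 1 := by
        exact_mod_cast ArithmeticFunction.abs_moebius_le_one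
      calc _ ≤ 1 * |∑ D ∈ S.filter (fun D => e ^ 2 ∣ D),
              wt ρ D * ((jacobiSym (D : ℤ) m : ℤ) : ℝ)| :=
            mul_le_mul_of_nonneg_right h1 (abs_nonneg _)
        _ = _ := one_mul _
    refine hb1.trans ?_
    have hb2 : ∑ e ∈ (Icc 1 (2 * X)).filter (fun e => e.Coprime (Qz z)), T e ≤
        ∑ e ∈ Ioc 0 Y, (X : ℝ) ^ c * G +
          ∑ e ∈ Ioc Y (2 * X), (X : ℝ) ^ c * (2 * (X : ℝ) * ((e : ℝ) ^ 2)⁻¹) := by
      have h1 : (Icc 1 (2 * X)) = Ioc 0 Y ∪ Ioc Y (2 * X) := by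
        rw [Finset.Ioc_union_Ioc_eq_Ioc (Nat.zero_le _) hYX]
        rfl
      have h2 : Disjoint (Ioc 0 Y) (Ioc Y (2 * X)) := by
        rw [Finset.disjoint_left]
        intro a ha hb
        rw [mem_Ioc] at ha hb
        omega
      rw [h1, Finset.filter_union, Finset.sum_union (Finset.disjoint_filter_filter h2)]
      apply add_le_add
      · calc ∑ e ∈ (Ioc 0 Y).filter (fun e => e.Coprime (Qz z)), T e ≤
            ∑ e ∈ (Ioc 0 Y).filter (fun e => e.Coprime (Qz z)), (X : ℝ) ^ c * G := by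
              apply Finset.sum_le_sum
              intro e he
              rw [mem_filter, mem_Ioc] at he
              exact hT1 e he.1.1 he.2
          _ ≤ ∑ e ∈ Ioc 0 Y, (X : ℝ) ^ c * G :=
              Finset.sum_le_sum_of_subset_of_nonneg (Finset.filter_subset _ _)
                (fun _ _ _ => mul_nonneg hXc.le hG0)
      · calc ∑ e ∈ (Ioc Y (2 * X)).filter (fun e => e.Coprime (Qz z)), T e ≤
            ∑ e ∈ (Ioc Y (2 * X)).filter (fun e => e.Coprime (Qz z)),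
              (X : ℝ) ^ c * (2 * (X : ℝ) * ((e : ℝ) ^ 2)⁻¹) := by
              apply Finset.sum_le_sum
              intro e he
              rw [mem_filter, mem_Ioc] at he
              exact hT2 e (by omega)
          _ ≤ ∑ e ∈ Ioc Y (2 * X), (X : ℝ) ^ c * (2 * (X : ℝ) * ((e : ℝ) ^ 2)⁻¹) :=
              Finset.sum_le_sum_of_subset_of_nonneg (Finset.filter_subset _ _)
                (fun _ _ _ => by positivity)
    refine hb2.trans ?_
    rw [Finset.sum_const, Nat.card_Ioc, ← Finset.mul_sum, ← Finset.mul_sum, nsmul_eq_mul,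
      Nat.sub_zero]
    have hb3 : ∑ e ∈ Ioc Y (2 * X), ((e : ℝ) ^ 2)⁻¹ ≤ (Y : ℝ)⁻¹ := by
      refine (sum_Ioc_inv_sq_le_sub (by omega) hYX).trans ?_
      have : (0 : ℝ) ≤ (((2 * X : ℕ) : ℝ))⁻¹ := by positivity
      linarith
    have hYpos : (0 : ℝ) < Y := by exact_mod_cast hY1
    have hb4 : 2 * (X : ℝ) * ∑ e ∈ Ioc Y (2 * X), ((e : ℝ) ^ 2)⁻¹ ≤
        4 * (X : ℝ) ^ (1 - 3 * c) := by
      calc 2 * (X : ℝ) * ∑ e ∈ Ioc Y (2 * X), ((e : ℝ) ^ 2)⁻¹ ≤ 2 * (X : ℝ) * (Y : ℝ)⁻¹ :=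
            mul_le_mul_of_nonneg_left hb3 (by positivity)
        _ ≤ 4 * (X : ℝ) ^ (1 - 3 * c) := by
            rw [← div_eq_mul_inv, div_le_iff₀ hYpos]
            have h1 : (X : ℝ) = (X : ℝ) ^ (1 - 3 * c) * (X : ℝ) ^ (3 * c) := by
              rw [← Real.rpow_add hX0']
              norm_num
            have h2 : (0 : ℝ) < (X : ℝ) ^ (1 - 3 * c) := by positivity
            calc 2 * (X : ℝ) = 2 * ((X : ℝ) ^ (1 - 3 * c) * (X : ℝ) ^ (3 * c)) := by
                  rw [← h1]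
              _ ≤ 2 * ((X : ℝ) ^ (1 - 3 * c) * (2 * Y)) := by
                  apply mul_le_mul_of_nonneg_left _ (by norm_num)
                  exact mul_le_mul_of_nonneg_left hYge h2.le
              _ = 4 * (X : ℝ) ^ (1 - 3 * c) * Y := by ring
    have hb5 : (Y : ℝ) * ((X : ℝ) ^ c * G) ≤ (X : ℝ) ^ (1 - 2 * c) * (2 * C * Real.log X) := by
      calc (Y : ℝ) * ((X : ℝ) ^ c * G) ≤
          (X : ℝ) ^ (3 * c) * ((X : ℝ) ^ c *
            ((X : ℝ) ^ (1 / 2 - 3 * c) * (2 * C * Real.log X))) := by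
            gcongr
        _ = (X : ℝ) ^ (1 / 2 + c) * (2 * C * Real.log X) := by
            rw [← mul_assoc, ← mul_assoc, ← Real.rpow_add hX0', ← Real.rpow_add hX0']
            congr 2
            ring
        _ ≤ (X : ℝ) ^ (1 - 2 * c) * (2 * C * Real.log X) := by
            refine mul_le_mul_of_nonneg_right ?_ (by positivity)
            exact Real.rpow_le_rpow_of_exponent_le hX1' (by linarith)
    have hb6 : (X : ℝ) ^ c * (2 * (X : ℝ) * ∑ e ∈ Ioc Y (2 * X), ((e : ℝ) ^ 2)⁻¹) ≤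
        4 * (X : ℝ) ^ (1 - 2 * c) := by
      refine (mul_le_mul_of_nonneg_left hb4 hXc.le).trans (le_of_eq ?_)
      have h1 : (X : ℝ) ^ (1 - 2 * c) = (X : ℝ) ^ c * (X : ℝ) ^ (1 - 3 * c) := by
        rw [← Real.rpow_add hX0']
        congr 1
        ring
      rw [h1]
      ring
    calc (Y : ℝ) * ((X : ℝ) ^ c * G) +
          (X : ℝ) ^ c * (2 * (X : ℝ) * ∑ e ∈ Ioc Y (2 * X), ((e : ℝ) ^ 2)⁻¹) ≤
        (X : ℝ) ^ (1 - 2 * c) * (2 * C * Real.log X) + 4 * (X : ℝ) ^ (1 - 2 * c) :=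
          add_le_add hb5 hb6
      _ = (X : ℝ) ^ (1 - 2 * c) * (2 * C * Real.log X + 4) := by ring
      _ ≤ (X : ℝ) ^ (1 - 2 * c) * (X : ℝ) ^ c :=
          mul_le_mul_of_nonneg_left hgrow (by positivity)
      _ = (X : ℝ) ^ (1 - c) := by
          rw [← Real.rpow_add hX0']
          congr 1
          ring

end Pool.Agent.H38R2.CG2
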